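import Mathlib
import Pool.Agent.Helper33.CH6

/-!
# A sufficient condition for symplectic structures on closed almost complex manifolds

`X` is a closed manifold with a continuous almost complex structure `J`, and `ζ 0, …, ζ k` are closed
two-forms. The vectors of `X` are exhausted in `k + 1` steps `N 0 ⊇ N 1 ⊇ ⋯ ⊇ N k` by sets of tangent
vectors; `N 0` consists of all vectors; for `i < k` the form `ζ i` is, locally along `N i` and up to exact
forms which depend on the place, nonnegative on the pairs `(v, J v)`, `v` in `N i`, and null exactly for `v` in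
`N (i + 1)` (`Level`). `N k` is contained in the kernel of the differential of a map `f` to a manifold, and
over each fibre of `f` the form `ζ k`, corrected by an exact form which depends on the fibre, is nonnegative on
`N k` and positive except at a set of points with small components (`GoodOver`).

Then some combination of the classes of `ζ 0, …, ζ k` with positive coefficients contains a symplectic form
which tames `J`; so, if `X` is simply connected, it is not an example for Q1. A simply connected closed almost
complex manifold without symplectic structures has no such chain for any of its almost complex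
structures.
-/

set_option autoImplicit false

open Set MeasureTheory
open scoped Manifold ContDiff

namespace Pool.Agent.Results.MP_2a78db_gt.ChainsOfCones

open Pool.Agent.Y501.SYP Pool.Agent.Helper33.CHP

/-- A chain: smooth closed forms `ζ 0, …, ζ k` and sets `N 0 ⊇ ⋯ ⊇ N k` of tangent vectors, `N 0` consisting
of all vectors, such that for `i < k` the form `ζ i` gives a level from `N i` down to `N (i + 1)`. -/
structure IsChain {d : ℕ} {X : Type} [TopologicalSpace X] [ChartedSpace (ES d) X]
    (J : End (ES d) X) (k : ℕ) (ζ : ℕ → Form (ES d) X 2) (N : ℕ → Cone (ES d) X) : Prop where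
  forms : ∀ i ≤ k, IsSmooth (ζ i) ∧ IsClosedForm (ζ i)
  all : ∀ x v, N 0 x v
  level : ∀ i < k, Level (ζ i) J (N i) (N (i + 1))

/-- the form `∑ c i (ζ i + ρ i)`, `i ≤ k` -/
noncomputable def posComb {d : ℕ} {X : Type} [TopologicalSpace X] [ChartedSpace (ES d) X] (k : ℕ)
    (c : ℕ → ℝ) (ζ ρ : ℕ → Form (ES d) X 2) : Form (ES d) X 2 := fun x =>
  ∑ i ∈ Finset.range (k + 1), c i • (ζ i x + ρ i x)

/-- One form out of the nested combinations: `∑ c i (s i) + b w` with positive coefficients. -/
theorem exists_of_nested {d : ℕ} {X : Type} [TopologicalSpace X] [ChartedSpace (ES d) X]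
    (P : Form (ES d) X 2 → Prop) (s : ℕ → Form (ES d) X 2) (k : ℕ) (w : Form (ES d) X 2)
    (h : NestedForms P s k w) :
    ∃ (c : ℕ → ℝ) (b : ℝ), (∀ i < k, 0 < c i) ∧ 0 < b ∧
      P (fun x => (∑ i ∈ Finset.range k, c i • s i x) + b • w x) := by
  induction k generalizing w with
  | zero =>
    refine ⟨fun _ => 1, 1, fun i hi => absurd hi (Nat.not_lt_zero _), one_pos, ?_⟩
    have e : (fun x => (∑ i ∈ Finset.range 0, (1 : ℝ) • s i x) + (1 : ℝ) • w x) = w := by
      funext x
      rw [Finset.range_zero, Finset.sum_empty, zero_add, one_smul]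
    rw [e]
    exact h
  | succ k ih =>
    obtain ⟨T, hT, h⟩ := h
    obtain ⟨c, b, hc, hb, h1⟩ := ih _ (h T hT le_rfl)
    refine ⟨fun i => if i = k then b else c i, b * T, fun i hi => ?_, mul_pos hb hT, ?_⟩
    · by_cases hik : i = k
      · simp only [hik, if_true]; exact hb
      · simp only [hik, if_false]; exact hc i (by omega)
    · have e : (fun x => (∑ i ∈ Finset.range (k + 1), (if i = k then b else c i) • s i x) +
          (b * T) • w x) = fun x => (∑ i ∈ Finset.range k, c i • s i x) +
            b • comb (s k) T w x := by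
        funext x
        have e1 : ∑ i ∈ Finset.range k, (if i = k then b else c i) • s i x =
            ∑ i ∈ Finset.range k, c i • s i x := by
          refine Finset.sum_congr rfl fun i hi => ?_
          rw [if_neg (Finset.mem_range.1 hi).ne]
        rw [Finset.sum_range_succ, e1, if_pos rfl]
        unfold comb
        rw [smul_add, smul_smul, add_assoc]
      rw [e]
      exact h1

theorem result (d m : ℕ) (X Y : Type) [TopologicalSpace X] [ChartedSpace (ES d) X]
    [IsManifold 𝓘(ℝ, ES d) ∞ X] [CompactSpace X] [T2Space X]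
    [TopologicalSpace Y] [ChartedSpace (ES m) Y] [IsManifold 𝓘(ℝ, ES m) ∞ Y] [T2Space Y]
    [SigmaCompactSpace Y]
    (J : End (ES d) X) (hJ : IsAlmostComplex J)
    (k : ℕ) (ζ : ℕ → Form (ES d) X 2) (N : ℕ → Cone (ES d) X) (hN : IsChain J k ζ N)
    (f : X → Y) (hf : ContMDiff 𝓘(ℝ, ES d) 𝓘(ℝ, ES m) ∞ f)
    (hker : ∀ (x : X) (v : TangentSpace 𝓘(ℝ, ES d) x), N k x v →
      mfderiv 𝓘(ℝ, ES d) 𝓘(ℝ, ES m) f x v = 0)
    (hfib : ∀ y : Y, GoodOver (N k) (ζ k) J (f ⁻¹' {y})) :
    ∃ (c : ℕ → ℝ) (α : ℕ → Form (ES d) X 1) (ρ : ℕ → Form (ES d) X 2), (∀ i ≤ k, 0 < c i) ∧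
      (∀ i ≤ k, IsSmooth (α i) ∧ IsSmooth (ρ i) ∧ IsD (α i) (ρ i)) ∧
      IsTamingSymplectic (posComb k c ζ ρ) J := by
  obtain ⟨α, ρ, h0, h⟩ := severalLevels J hJ k ζ hN.forms N hN.all hN.level f hf hker hfib
  obtain ⟨c, b, hc, hb, h1⟩ := exists_of_nested _ _ _ _ h
  refine ⟨fun i => if i = k then b else c i, α, ρ, fun i hi => ?_, h0, ?_⟩
  · by_cases hik : i = k
    · simp only [hik, if_true]; exact hb
    · simp only [hik, if_false]; exact hc i (by omega)
  · have e : posComb k (fun i => if i = k then b else c i) ζ ρ = fun x => (∑ i ∈ Finset.range k, c i • addF (ζ i) (ρ i) x) +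
          b • addF (ζ k) (ρ k) x := by
      funext x
      unfold posComb
      have e1 : ∑ i ∈ Finset.range k, (if i = k then b else c i) • (ζ i x + ρ i x) =
          ∑ i ∈ Finset.range k, c i • addF (ζ i) (ρ i) x := by
        refine Finset.sum_congr rfl fun i hi => ?_
        rw [if_neg (Finset.mem_range.1 hi).ne]
        rfl
      rw [Finset.sum_range_succ, e1]
      have e2 : (fun i => if i = k then b else c i) k = b := if_pos rfl
      rw [e2]
      rfl
    rw [e]
    exact h1.1

end Pool.Agent.Results.MP_2a78db_gt.ChainsOfCones
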